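import Mathlib
import Pool.Agent.Helper50.BO.St

/-!
Linear discrepancy is at most twice the hereditary discrepancy (module LD of Theorem O).
-/

namespace Pool.Agent.Helper42.BO

open Pool.Agent.Helper50.BO

/-- dyadic case -/
theorem ld_dyadic {V J : Type} [Fintype V] [Fintype J] (c : J → V → ℝ) (F : Set V) (T : ℝ)
    (h : ∀ U : Set V, U ⊆ F → ∃ e : V → ℝ, (∀ i ∈ U, |e i| = 1) ∧ (∀ i, i ∉ U → e i = 0) ∧
      ∀ j, |∑ i, c j i * e i| ≤ T) (n : ℕ) :
    ∀ k : V → ℕ, (∀ i, k i ≤ 2 ^ n) → (∀ i, i ∉ F → (k i = 0 ∨ k i = 2 ^ n)) →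
      ∃ χ : V → ℝ, (∀ i, χ i = 1 ∨ χ i = -1) ∧
        (∀ i, k i = 0 → χ i = -1) ∧ (∀ i, k i = 2 ^ n → χ i = 1) ∧
        ∀ j, |∑ i, c j i * (χ i - (2 * (k i : ℝ) / 2 ^ n - 1))| ≤ 2 * T * (1 - 1 / 2 ^ n) := by
  induction n with
  | zero =>
    intro k hk _
    refine ⟨fun i => 2 * (k i : ℝ) - 1, ?_, ?_, ?_, ?_⟩
    · intro i
      have h1 := hk i
      have : k i = 0 ∨ k i = 1 := by simp at h1; omega
      rcases this with h2 | h2
      · right; simp [h2]
      · left; simp [h2]; norm_num
    · intro i hi; simp [hi]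
    · intro i hi; simp at hi; simp [hi]; norm_num
    · intro j; simp
  | succ n ih =>
    intro k hk hF
    obtain ⟨e, he1, he2, he3⟩ := h {i | k i % 2 = 1} (by
      intro i hi
      by_contra hc
      rcases hF i hc with h1 | h1
      · simp [h1] at hi
      · simp only [Set.mem_ofPred_eq, h1, pow_succ] at hi
        omega)
    classical
    -- new numerators
    let k' : V → ℕ := fun i => if k i % 2 = 1 then (if e i = 1 then (k i + 1) / 2 else (k i - 1) / 2)
      else k i / 2
    have hk' : ∀ i, (k' i : ℝ) = (k i + e i) / 2 := by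
      intro i
      by_cases hp : k i % 2 = 1
      · have ha := he1 i hp
        by_cases h1 : e i = 1
        · have h3 : 2 * ((k i + 1) / 2) = k i + 1 := by omega
          have h4 : (2 : ℝ) * (((k i + 1) / 2 : ℕ) : ℝ) = (k i : ℝ) + 1 := by exact_mod_cast h3
          simp only [k', hp, if_true, h1]
          linarith
        · have h2 : e i = -1 := by
            rcases abs_eq (by norm_num : (0 : ℝ) ≤ 1) |>.mp ha with h2 | h2
            · exact absurd h2 h1
            · exact h2
          have h3 : 2 * ((k i - 1) / 2) + 1 = k i := by omega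
          have h4 : (2 : ℝ) * (((k i - 1) / 2 : ℕ) : ℝ) + 1 = (k i : ℝ) := by exact_mod_cast h3
          simp only [k', hp, if_true]
          rw [if_neg h1, h2]
          linarith
      · have h2 : e i = 0 := he2 i hp
        have h3 : 2 * (k i / 2) = k i := by omega
        have h4 : (2 : ℝ) * ((k i / 2 : ℕ) : ℝ) = (k i : ℝ) := by exact_mod_cast h3
        simp only [k', hp, if_false, h2]
        linarith
    have hle : ∀ i, k' i ≤ 2 ^ n := by
      intro i
      have h1 := hk i
      rw [pow_succ] at h1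
      by_cases hp : k i % 2 = 1
      · by_cases h2 : e i = 1
        · simp only [k', hp, if_true, h2]; omega
        · simp only [k', hp, if_true]; rw [if_neg h2]; omega
      · simp only [k', hp, if_false]; omega
    have h0 : ∀ i, k i = 0 → k' i = 0 := by
      intro i hi
      simp [k', hi]
    have hT : ∀ i, k i = 2 ^ (n + 1) → k' i = 2 ^ n := by
      intro i hi
      have hp : ¬ (k i % 2 = 1) := by rw [hi, pow_succ]; omega
      simp only [k', hp, if_false]
      rw [hi, pow_succ]; omega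
    obtain ⟨χ, hχ1, hχ2, hχ3, hχ4⟩ := ih k' hle (by
      intro i hi
      rcases hF i hi with h1 | h1
      · left; exact h0 i h1
      · right; exact hT i h1)
    refine ⟨χ, hχ1, fun i hi => hχ2 i (h0 i hi), fun i hi => hχ3 i (hT i hi), ?_⟩
    intro j
    have e1 : ∑ i, c j i * (χ i - (2 * (k i : ℝ) / 2 ^ (n + 1) - 1))
        = ∑ i, c j i * (χ i - (2 * (k' i : ℝ) / 2 ^ n - 1)) + (1 / 2 ^ n) * ∑ i, c j i * e i := by
      rw [Finset.mul_sum, ← Finset.sum_add_distrib]
      apply Finset.sum_congr rfl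
      intro i _
      rw [hk' i, pow_succ]
      field_simp
      ring
    rw [e1]
    have e2 : |∑ i, c j i * (χ i - (2 * (k' i : ℝ) / 2 ^ n - 1)) + (1 / 2 ^ n) * ∑ i, c j i * e i|
        ≤ 2 * T * (1 - 1 / 2 ^ n) + (1 / 2 ^ n) * T := by
      refine (abs_add_le _ _).trans (add_le_add (hχ4 j) ?_)
      rw [abs_mul, abs_of_pos (by positivity : (0 : ℝ) < 1 / 2 ^ n)]
      exact mul_le_mul_of_nonneg_left (he3 j) (by positivity)
    refine e2.trans (le_of_eq ?_)
    rw [pow_succ]
    field_simp
    ring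

theorem LD_proof : LD := by
  intro V J _ _ c F T h y hy hF
  classical
  -- approximations
  have happ : ∀ n : ℕ, ∃ s : V → Bool,
      (∀ i, |y i| = 1 → (if s i then (1 : ℝ) else -1) = y i) ∧
      ∀ j, |∑ i, c j i * ((if s i then (1 : ℝ) else -1) - y i)|
        ≤ 2 * T + (1 / 2 ^ n) * (2 * ∑ i, |c j i|) := by
    intro n
    let k : V → ℕ := fun i => ⌊(y i + 1) / 2 * 2 ^ n⌋₊
    have hx : ∀ i, 0 ≤ (y i + 1) / 2 * 2 ^ n := by
      intro i
      have := (abs_le.mp (hy i)).1
      have : 0 ≤ (y i + 1) / 2 := by linarith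
      positivity
    have hk1 : ∀ i, (k i : ℝ) ≤ (y i + 1) / 2 * 2 ^ n := fun i => Nat.floor_le (hx i)
    have hk2 : ∀ i, (y i + 1) / 2 * 2 ^ n < (k i : ℝ) + 1 := fun i => Nat.lt_floor_add_one _
    have hkm : ∀ i, y i = -1 → k i = 0 := by
      intro i hi
      simp [k, hi]
    have hkp : ∀ i, y i = 1 → k i = 2 ^ n := by
      intro i hi
      have h1 : (y i + 1) / 2 * 2 ^ n = ((2 ^ n : ℕ) : ℝ) := by
        rw [hi]; push_cast; ring
      simp only [k]
      rw [h1, Nat.floor_natCast]
    have hkl : ∀ i, k i ≤ 2 ^ n := by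
      intro i
      have h1 := (abs_le.mp (hy i)).2
      have h2 : (k i : ℝ) ≤ 2 ^ n := by
        refine (hk1 i).trans ?_
        have : (y i + 1) / 2 ≤ 1 := by linarith
        calc (y i + 1) / 2 * 2 ^ n ≤ 1 * 2 ^ n := mul_le_mul_of_nonneg_right this (by positivity)
          _ = 2 ^ n := one_mul _
      exact_mod_cast h2
    have hsgn : ∀ i, |y i| = 1 → y i = 1 ∨ y i = -1 := fun i hi =>
      (abs_eq (by norm_num : (0 : ℝ) ≤ 1)).mp hi
    obtain ⟨χ, h1, h2, h3, h4⟩ := ld_dyadic c F T h n k hkl (by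
      intro i hi
      rcases hsgn i (hF i hi) with h1 | h1
      · right; exact hkp i h1
      · left; exact hkm i h1)
    have hχ : ∀ i, (if decide (χ i = 1) then (1 : ℝ) else -1) = χ i := by
      intro i
      rcases h1 i with h5 | h5
      · simp [h5]
      · have h6 : ¬ (χ i = 1) := by rw [h5]; norm_num
        rw [if_neg (by simpa using h6), h5]
    refine ⟨fun i => decide (χ i = 1), ?_, ?_⟩
    · intro i hi
      simp only [hχ]
      rcases hsgn i hi with h5 | h5
      · rw [h3 i (hkp i h5), h5]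
      · rw [h2 i (hkm i h5), h5]
    · intro j
      simp only [hχ]
      have hT : 0 ≤ T := by
        obtain ⟨e, -, -, he⟩ := h ∅ (Set.empty_subset _)
        exact (abs_nonneg _).trans (he j)
      have e1 : ∑ i, c j i * (χ i - y i) = ∑ i, c j i * (χ i - (2 * (k i : ℝ) / 2 ^ n - 1))
          + ∑ i, c j i * ((2 * (k i : ℝ) / 2 ^ n - 1) - y i) := by
        rw [← Finset.sum_add_distrib]
        apply Finset.sum_congr rfl
        intro i _
        ring
      rw [e1]
      refine (abs_add_le _ _).trans (add_le_add ((h4 j).trans ?_) ?_)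
      · have : 0 ≤ (1 : ℝ) / 2 ^ n := by positivity
        nlinarith
      · refine (Finset.abs_sum_le_sum_abs _ _).trans ?_
        rw [Finset.mul_sum, Finset.mul_sum]
        apply Finset.sum_le_sum
        intro i _
        rw [abs_mul]
        have h6 : |(2 * (k i : ℝ) / 2 ^ n - 1) - y i| ≤ 2 / 2 ^ n := by
          have hp : (0 : ℝ) < 2 ^ n := by positivity
          rw [abs_le]
          have h7 := hk1 i
          have h8 := hk2 i
          constructor
          · rw [le_sub_iff_add_le, le_sub_iff_add_le, le_div_iff₀ hp]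
            have : (-(2 / 2 ^ n) + y i + 1) * 2 ^ n = -2 + (y i + 1) * 2 ^ n := by
              field_simp
              ring
            have h9 : (-(2 / (2 : ℝ) ^ n) + y i + 1) * 2 ^ n ≤ 2 * (k i : ℝ) := by
              rw [this]; nlinarith
            linarith
          · rw [sub_le_iff_le_add, sub_le_iff_le_add, div_le_iff₀ hp]
            have : (2 / 2 ^ n + y i + 1) * 2 ^ n = 2 + (y i + 1) * 2 ^ n := by
              field_simp
              ring
            have h9 : 2 * (k i : ℝ) ≤ (2 / (2 : ℝ) ^ n + y i + 1) * 2 ^ n := by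
              rw [this]; nlinarith
            linarith
        calc |c j i| * |(2 * (k i : ℝ) / 2 ^ n - 1) - y i| ≤ |c j i| * (2 / 2 ^ n) :=
              mul_le_mul_of_nonneg_left h6 (abs_nonneg _)
          _ = 1 / 2 ^ n * (2 * |c j i|) := by ring
  choose s hs1 hs2 using happ
  obtain ⟨S, hS⟩ := Finite.exists_infinite_fiber s
  have hinf : (s ⁻¹' {S}).Infinite := Set.infinite_coe_iff.mp hS
  refine ⟨fun i => if S i then 1 else -1, ?_, ?_, ?_⟩
  · intro i
    by_cases hSi : S i
    · simp [hSi]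
    · simp [hSi]
  · intro i hi
    obtain ⟨n, hn⟩ := hinf.nonempty
    have : s n = S := hn
    rw [← this]
    exact hs1 n i hi
  · intro j
    apply le_of_forall_pos_le_add
    intro ε hε
    set D : ℝ := 2 * ∑ i, |c j i| with hD
    have hD0 : 0 ≤ D := by
      have : 0 ≤ ∑ i, |c j i| := Finset.sum_nonneg fun i _ => abs_nonneg _
      linarith
    obtain ⟨n0, hn0⟩ := exists_pow_lt_of_lt_one (show (0 : ℝ) < ε / (D + 1) by positivity)
      (show (1 / 2 : ℝ) < 1 by norm_num)
    obtain ⟨n, hn, hn1⟩ := hinf.exists_gt n0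
    have hsn : s n = S := hn
    have h1 := hs2 n j
    rw [hsn] at h1
    refine h1.trans ?_
    have h2 : (1 : ℝ) / 2 ^ n ≤ (1 / 2) ^ n0 := by
      rw [one_div, ← inv_pow, ← one_div]
      exact pow_le_pow_of_le_one (by norm_num) (by norm_num) hn1.le
    have h3 : (1 : ℝ) / 2 ^ n ≤ ε / (D + 1) := h2.trans hn0.le
    have h4 : (1 : ℝ) / 2 ^ n * D ≤ ε / (D + 1) * D := mul_le_mul_of_nonneg_right h3 hD0
    have h5 : ε / (D + 1) * D ≤ ε := by
      rw [div_mul_eq_mul_div, div_le_iff₀ (by linarith)]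
      nlinarith
    linarith

end Pool.Agent.Helper42.BO
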